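import Mathlib
import Pool.Agent.helper3.Neg

/-! A variety `U` of nilpotent groups of class at most four such that `[U,E]` is generated by
its free group of rank two, while the class four part of `[U,E]` is not. -/

namespace Pool.Agent.Results.MP_215da1_al.GeneratingRank

open Subgroup
open scoped commutatorElement

/-- A variety of groups, given by its set of laws, which is a fully invariant subgroup of the
free group of countably infinite rank. -/
structure GroupVariety where
  /-- the verbal subgroup of the free group of countably infinite rank -/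
  laws : Subgroup (FreeGroup ℕ)
  /-- it is mapped into itself by all endomorphisms -/
  fullyInvariant : ∀ f : FreeGroup ℕ →* FreeGroup ℕ, laws.map f ≤ laws

theorem GroupVariety.ext' {U V : GroupVariety} (h : U.laws = V.laws) : U = V := by
  cases U; cases V; simp only at h; subst h; rfl

/-- The verbal subgroup `V(G)` of a group `G`: it is generated by all values of laws of `V`. -/
def GroupVariety.verbal (V : GroupVariety) (G : Type) [Group G] : Subgroup G :=
  Subgroup.closure {g | ∃ w ∈ V.laws, ∃ f : FreeGroup ℕ →* G, f w = g}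

instance GroupVariety.verbal_normal (V : GroupVariety) (G : Type) [Group G] :
    (V.verbal G).Normal := by
  constructor
  intro z hz g
  unfold GroupVariety.verbal at hz ⊢
  induction hz using Subgroup.closure_induction with
  | mem z hz =>
    obtain ⟨w, hw, f, rfl⟩ := hz
    exact subset_closure ⟨w, hw, (MulAut.conj g).toMonoidHom.comp f, by simp⟩
  | one => simp
  | mul a b _ _ ha hb =>
    have : g * (a * b) * g⁻¹ = (g * a * g⁻¹) * (g * b * g⁻¹) := by group
    rw [this]
    exact mul_mem ha hb
  | inv a _ ha =>
    have : g * a⁻¹ * g⁻¹ = (g * a * g⁻¹)⁻¹ := by group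
    rw [this]
    exact inv_mem ha

/-- The free group `F_k(V)` of rank `k` of the variety `V`. -/
abbrev GroupVariety.RelFree (V : GroupVariety) (k : ℕ) : Type :=
  FreeGroup (Fin k) ⧸ V.verbal (FreeGroup (Fin k))

/-- The variety `var G` generated by the group `G`: its laws are the words all of whose values
in `G` are trivial. -/
def varOf (G : Type) [Group G] : GroupVariety where
  laws := ⨅ f : FreeGroup ℕ →* G, f.ker
  fullyInvariant := by
    intro f
    rw [map_le_iff_le_comap]
    intro w hw
    rw [mem_comap, mem_iInf]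
    intro g
    exact (mem_iInf.mp hw) (g.comp f)

/-- `V` is generated by its free group of rank `k`. -/
def GroupVariety.GeneratedByRank (V : GroupVariety) (k : ℕ) : Prop :=
  varOf (V.RelFree k) = V

/-- The trivial variety `E`: every word is a law. -/
def trivialVariety : GroupVariety where
  laws := ⊤
  fullyInvariant := fun _ => le_top

/-- The variety `N_c` of nilpotent groups of class at most `c`; its verbal subgroup in the free
group is the `(c+1)`-st term of the lower central series. -/
def nilpotentVariety (c : ℕ) : GroupVariety where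
  laws := (⊤ : Subgroup (FreeGroup ℕ)).lowerCentralSeries c
  fullyInvariant := fun f => Pool.Agent.helper3.map_gam_le f c

/-- The intersection of two varieties: both sets of laws are imposed. -/
def GroupVariety.inter (U V : GroupVariety) : GroupVariety where
  laws := U.laws ⊔ V.laws
  fullyInvariant := by
    intro f
    rw [Subgroup.map_sup]
    exact sup_le_sup (U.fullyInvariant f) (V.fullyInvariant f)

/-- The commutator variety `[U,V]`, with verbal subgroup `[U(F),V(F)]`. -/
def GroupVariety.commVariety (U V : GroupVariety) : GroupVariety where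
  laws := ⁅U.laws, V.laws⁆
  fullyInvariant := by
    intro f
    rw [Subgroup.map_commutator]
    exact commutator_mono (U.fullyInvariant f) (V.fullyInvariant f)

/-- `U` is a subvariety of `V`: every law of `V` is a law of `U`. -/
def GroupVariety.IsSubvariety (U V : GroupVariety) : Prop := V.laws ≤ U.laws

open Pool.Agent.helper3

/-- the variety of the counterexample -/
def UU : GroupVariety where
  laws := uu (FreeGroup ℕ)
  fullyInvariant := fun f => uu_map f

/-- two generators -/
def two (n : ℕ) : FreeGroup (Fin 2) := if n = 0 then FreeGroup.of 0 else FreeGroup.of 1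

theorem two_surj : Function.Surjective (FreeGroup.lift two) := by
  intro w
  induction w with
  | C1 => exact ⟨1, map_one _⟩
  | of i =>
    fin_cases i
    · exact ⟨FreeGroup.of 0, by rw [FreeGroup.lift_apply_of]; rfl⟩
    · exact ⟨FreeGroup.of 1, by rw [FreeGroup.lift_apply_of]; rfl⟩
  | inv_of i h =>
    obtain ⟨u, hu⟩ := h
    exact ⟨u⁻¹, by rw [map_inv, hu]⟩
  | mul a b ha hb =>
    obtain ⟨u, hu⟩ := ha
    obtain ⟨v, hv⟩ := hb
    exact ⟨u * v, by rw [map_mul, hu, hv]⟩

theorem verbal_of_map (V : GroupVariety) {G : Type} [Group G] (f : FreeGroup ℕ →* G)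
    {w : FreeGroup ℕ} (hw : w ∈ V.laws) : f w ∈ V.verbal G :=
  subset_closure ⟨w, hw, f, rfl⟩

/-- the law of the free group `F_2` -/
theorem inV_relFree (W : GroupVariety)
    (h : ⁅uu (FreeGroup ℕ), (⊤ : Subgroup (FreeGroup ℕ))⁆ ≤ W.laws) : InV (W.RelFree 2) := by
  apply inV_of_surj ((QuotientGroup.mk' (W.verbal (FreeGroup (Fin 2)))).comp
    (FreeGroup.lift two))
  · exact (QuotientGroup.mk'_surjective _).comp two_surj
  · intro z hz
    rw [MonoidHom.comp_apply, QuotientGroup.mk'_apply, QuotientGroup.eq_one_iff]
    exact verbal_of_map W _ (h hz)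

theorem exists_fin (w : FreeGroup ℕ) :
    ∃ N, ∀ M, N ≤ M → FreeGroup.map (fun n => min n M) w = w := by
  induction w with
  | C1 => exact ⟨0, fun M _ => map_one _⟩
  | of i =>
    refine ⟨i, fun M hM => ?_⟩
    rw [FreeGroup.map.of, min_eq_left hM]
  | inv_of i h =>
    obtain ⟨N, hN⟩ := h
    exact ⟨N, fun M hM => by rw [map_inv, hN M hM]⟩
  | mul a b ha hb =>
    obtain ⟨N, hN⟩ := ha
    obtain ⟨N', hN'⟩ := hb
    refine ⟨max N N', fun M hM => ?_⟩
    rw [map_mul, hN M (le_trans (le_max_left _ _) hM), hN' M (le_trans (le_max_right _ _) hM)]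

/-- words of countably many letters -/
theorem law_of_good' {w : FreeGroup ℕ} (hw : Good w) (K : Type) [Group K] (hK : InV K)
    (x : ℕ → K) : FreeGroup.lift x w = 1 := by
  obtain ⟨N, hN⟩ := exists_fin w
  let r : ℕ → Fin (N + 1) := fun n => ⟨min n N, by omega⟩
  have h1 : FreeGroup.map (fun i : Fin (N + 1) => (i : ℕ)) (FreeGroup.map r w) = w := by
    rw [FreeGroup.map.comp]
    exact hN N le_rfl
  have h2 : Good (FreeGroup.map r w) := hw.map (FreeGroup.map r)
  have h3 := law_of_good h2 K hK (fun i => x i)
  have h4 : FreeGroup.lift x (FreeGroup.map (fun i : Fin (N + 1) => (i : ℕ))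
      (FreeGroup.map r w)) = FreeGroup.lift (fun i : Fin (N + 1) => x i)
      (FreeGroup.map r w) := by
    have : (FreeGroup.lift x).comp (FreeGroup.map (fun i : Fin (N + 1) => (i : ℕ))) =
      FreeGroup.lift (fun i : Fin (N + 1) => x i) := by ext i; simp
    exact DFunLike.congr_fun this _
  rw [h1] at h4
  rw [h4, h3]

theorem generated : (UU.commVariety trivialVariety).GeneratedByRank 2 := by
  set V := UU.commVariety trivialVariety with hV
  have hVl : V.laws = ⁅uu (FreeGroup ℕ), (⊤ : Subgroup (FreeGroup ℕ))⁆ := rfl
  apply GroupVariety.ext'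
  apply le_antisymm
  · intro w hw
    have hw' : ∀ f : FreeGroup ℕ →* V.RelFree 2, f w = 1 := fun f => (mem_iInf.mp hw) f
    have hgood : Good w := by
      intro K _ hK x y h hh
      let g : FreeGroup (Fin 2) →* K := FreeGroup.lift ![x, y]
      have hker : V.verbal (FreeGroup (Fin 2)) ≤ g.ker := by
        unfold GroupVariety.verbal
        rw [closure_le]
        rintro _ ⟨u, hu, f, rfl⟩
        exact hK.kill (g.comp f) hu
      let g' : V.RelFree 2 →* K := QuotientGroup.lift _ g hker
      have hrange : closure ({x, y} : Set K) ≤ g.range := by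
        rw [closure_le]
        rintro z (rfl | hz)
        · exact ⟨FreeGroup.of 0, by simp [g]⟩
        · have hz' : z = y := hz
          subst hz'
          exact ⟨FreeGroup.of 1, by simp [g]⟩
      choose r hr using fun i => hrange (hh i)
      have h1 := hw' (FreeGroup.lift (fun i => ((r i : FreeGroup (Fin 2)) : V.RelFree 2)))
      have h2 := congrArg g' h1
      rw [map_one] at h2
      have h3 : (g'.comp (FreeGroup.lift (fun i => ((r i : FreeGroup (Fin 2)) :
          V.RelFree 2)))) = FreeGroup.lift h := by
        ext i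
        rw [MonoidHom.comp_apply, FreeGroup.lift_apply_of, FreeGroup.lift_apply_of, ← hr i]
        rfl
      rw [← h3]
      exact h2
    have hn : V.laws.Normal := by rw [hVl]; infer_instance
    have hK : InV (FreeGroup ℕ ⧸ V.laws) := inV_quot _ (le_of_eq hVl.symm)
    have h1 := law_of_good' hgood (FreeGroup ℕ ⧸ V.laws) hK
      (fun i => QuotientGroup.mk' V.laws (FreeGroup.of i))
    rw [lift_of_apply, QuotientGroup.mk'_apply, QuotientGroup.eq_one_iff] at h1
    exact h1
  · intro w hw
    apply mem_iInf.mpr
    intro f
    exact (inV_relFree V (le_of_eq hVl.symm)).kill f hw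

/-- the metabelian law -/
def word : FreeGroup ℕ :=
  ⁅⁅(FreeGroup.of 0 : FreeGroup ℕ), (FreeGroup.of 1 : FreeGroup ℕ)⁆,
    ⁅(FreeGroup.of 2 : FreeGroup ℕ), (FreeGroup.of 3 : FreeGroup ℕ)⁆⁆

theorem not_generated :
    ¬ ((nilpotentVariety 4).inter (UU.commVariety trivialVariety)).GeneratedByRank 2 := by
  intro hgen
  set W := (nilpotentVariety 4).inter (UU.commVariety trivialVariety) with hW
  have hWl : W.laws = gam (FreeGroup ℕ) 4 ⊔
    ⁅uu (FreeGroup ℕ), (⊤ : Subgroup (FreeGroup ℕ))⁆ := rfl
  have h1 : word ∈ (varOf (W.RelFree 2)).laws := by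
    apply mem_iInf.mpr
    intro f
    have hR : gam (W.RelFree 2) 4 = ⊥ := by
      rw [eq_bot_iff]
      intro z hz
      obtain ⟨u, hu, rfl⟩ := exists_gam_of_surj
        ((QuotientGroup.mk' (W.verbal (FreeGroup (Fin 2)))).comp (FreeGroup.lift two))
        ((QuotientGroup.mk'_surjective _).comp two_surj) hz
      rw [mem_bot, MonoidHom.comp_apply, QuotientGroup.mk'_apply, QuotientGroup.eq_one_iff]
      exact verbal_of_map W _ (mem_sup_left hu)
    have hcl : closure ({((FreeGroup.of 0 : FreeGroup (Fin 2)) : W.RelFree 2),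
        ((FreeGroup.of 1 : FreeGroup (Fin 2)) : W.RelFree 2)} : Set (W.RelFree 2)) = ⊤ := by
      rw [eq_top_iff]
      intro z _
      obtain ⟨u, rfl⟩ := QuotientGroup.mk'_surjective _ z
      rw [← lift_of_apply (QuotientGroup.mk' _) u]
      apply lift_mem
      intro i
      fin_cases i
      · exact subset_closure (by left; rfl)
      · exact subset_closure (by right; rfl)
    rw [MonoidHom.mem_ker]
    unfold word
    simp only [map_commutatorElement]
    exact metab_of_two hR hcl _ _ _ _
  have h2 : (varOf (W.RelFree 2)).laws = W.laws := congrArg GroupVariety.laws hgen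
  rw [h2, hWl] at h1
  let φ : FreeGroup ℕ →* FreeGroup (Fin 4) := FreeGroup.lift
    (fun n => if h : n < 4 then FreeGroup.of ⟨n, h⟩ else 1)
  have h3 : φ word ∈ gam (FreeGroup (Fin 4)) 4 ⊔
      ⁅uu (FreeGroup (Fin 4)), (⊤ : Subgroup (FreeGroup (Fin 4)))⁆ := by
    have h4 := mem_map_of_mem φ h1
    rw [Subgroup.map_sup, Subgroup.map_commutator] at h4
    exact sup_le_sup (map_gam_le φ 4) (commutator_mono (uu_map φ) le_top) h4
  have h5 : φ word = ⁅⁅zv 0, zv 1⁆, ⁅zv 2, zv 3⁆⁆ := by
    unfold word
    simp only [map_commutatorElement, φ, FreeGroup.lift_apply_of]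
    rfl
  rw [h5] at h3
  exact not_mem_four h3

theorem result : ∃ U : GroupVariety, U.IsSubvariety (nilpotentVariety 4) ∧
    (U.commVariety trivialVariety).GeneratedByRank 2 ∧
    ¬ ((nilpotentVariety 4).inter (U.commVariety trivialVariety)).GeneratedByRank 2 :=
  ⟨UU, le_sup_right, generated, not_generated⟩

end Pool.Agent.Results.MP_215da1_al.GeneratingRank
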